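import Pool.Agent.NNr.R13_1_6_7.D0
import Pool.Agent.NNr.R13_1_6_7.D1
import Pool.Agent.NNr.R13_1_6_7.D2
import Pool.Agent.NNe.Slots

set_option linter.all false
set_option maxRecDepth 1000000
namespace Pool.Agent.NNr.R13_1_6_7

open Pool.Agent.NNe

def rf1_12 : rfCk (nat_lit 59) (nat_lit 5) (nat_lit 60) (nat_lit 13) (nat_lit 1) (nat_lit 262144) (nat_lit 12) TL1 CL0 CL1 = true := by decide +kernel
def st1_12_0 : starCk (nat_lit 60) (nat_lit 13) (nat_lit 1) (nat_lit 6) (nat_lit 46) (nat_lit 138) (nat_lit 256) C1_12 = true := by decide +kernel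
def sc1_12 : stCov (nat_lit 2) (nat_lit 138) (Rl.cons (nat_lit 138) (nat_lit 46) Rl.nil) C1_12 = true := by decide +kernel
def wf1_13 : wfC (nat_lit 60) (nat_lit 13) C1_13 = true := by decide +kernel
def rf1_13 : rfCk (nat_lit 59) (nat_lit 5) (nat_lit 60) (nat_lit 13) (nat_lit 1) (nat_lit 262144) (nat_lit 13) TL1 CL0 CL1 = true := by decide +kernel
def st1_13_0 : starCk (nat_lit 60) (nat_lit 13) (nat_lit 1) (nat_lit 6) (nat_lit 24) (nat_lit 82) (nat_lit 16) C1_13 = true := by decide +kernel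
def sc1_13 : stCov (nat_lit 1) (nat_lit 82) (Rl.cons (nat_lit 82) (nat_lit 24) Rl.nil) C1_13 = true := by decide +kernel
def ti1_0 : tileCk (nat_lit 60) (nat_lit 13) (nat_lit 2) (nat_lit 6) (nat_lit 249) (nat_lit 13) (nat_lit 14) ZL1_0 CL1 = true := by decide +kernel
def zl1_0 : zlOK (nat_lit 249) ZL1_0 = true := by decide +kernel
def ti1_1 : tileCk (nat_lit 60) (nat_lit 13) (nat_lit 2) (nat_lit 6) (nat_lit 249) (nat_lit 13) (nat_lit 14) ZL1_1 CL1 = true := by decide +kernel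
def zl1_1 : zlOK (nat_lit 249) ZL1_1 = true := by decide +kernel
def tc1_0 : tiCov (nat_lit 1) (nat_lit 0) ZZ1 C1_0 = true := by decide +kernel
def tc1_1 : tiCov (nat_lit 1) (nat_lit 1) ZZ1 C1_1 = true := by decide +kernel
def tc1_2 : tiCov (nat_lit 1) (nat_lit 2) ZZ1 C1_2 = true := by decide +kernel
def tc1_3 : tiCov (nat_lit 1) (nat_lit 3) ZZ1 C1_3 = true := by decide +kernel
def tc1_4 : tiCov (nat_lit 1) (nat_lit 4) ZZ1 C1_4 = true := by decide +kernel
def tc1_9 : tiCov (nat_lit 1) (nat_lit 9) ZZ1 C1_9 = true := by decide +kernel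
def tc1_10 : tiCov (nat_lit 1) (nat_lit 10) ZZ1 C1_10 = true := by decide +kernel
def tc1_11 : tiCov (nat_lit 1) (nat_lit 11) ZZ1 C1_11 = true := by decide +kernel
def tc1_12 : tiCov (nat_lit 1) (nat_lit 12) ZZ1 C1_12 = true := by decide +kernel
def tc1_13 : tiCov (nat_lit 1) (nat_lit 13) ZZ1 C1_13 = true := by decide +kernel
def wf2_0 : wfC (nat_lit 14) (nat_lit 4) C2_0 = true := by decide +kernel
def rf2_0 : rfCk (nat_lit 60) (nat_lit 13) (nat_lit 14) (nat_lit 4) (nat_lit 9) (nat_lit 0) (nat_lit 0) TL2 CL1 CL2 = true := by decide +kernel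
def st2_0_0 : starCk (nat_lit 14) (nat_lit 4) (nat_lit 2) (nat_lit 1) (nat_lit 1) (nat_lit 0) (nat_lit 256) C2_0 = true := by decide +kernel
def sc2_0 : stCov (nat_lit 2) (nat_lit 0) (Rl.cons (nat_lit 0) (nat_lit 1) Rl.nil) C2_0 = true := by decide +kernel
def wf2_1 : wfC (nat_lit 14) (nat_lit 4) C2_1 = true := by decide +kernel
def rf2_1 : rfCk (nat_lit 60) (nat_lit 13) (nat_lit 14) (nat_lit 4) (nat_lit 9) (nat_lit 0) (nat_lit 1) TL2 CL1 CL2 = true := by decide +kernel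
def sc2_1 : stCov (nat_lit 1) (nat_lit 0) Rl.nil C2_1 = true := by decide +kernel
def wf2_2 : wfC (nat_lit 14) (nat_lit 4) C2_2 = true := by decide +kernel
def rf2_2 : rfCk (nat_lit 60) (nat_lit 13) (nat_lit 14) (nat_lit 4) (nat_lit 9) (nat_lit 0) (nat_lit 2) TL2 CL1 CL2 = true := by decide +kernel
def st2_2_0 : starCk (nat_lit 14) (nat_lit 4) (nat_lit 2) (nat_lit 1) (nat_lit 2) (nat_lit 4) (nat_lit 1) C2_2 = true := by decide +kernel
def sc2_2 : stCov (nat_lit 0) (nat_lit 4) (Rl.cons (nat_lit 4) (nat_lit 2) Rl.nil) C2_2 = true := by decide +kernel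
def wf2_3 : wfC (nat_lit 14) (nat_lit 4) C2_3 = true := by decide +kernel
def rf2_3 : rfCk (nat_lit 60) (nat_lit 13) (nat_lit 14) (nat_lit 4) (nat_lit 9) (nat_lit 0) (nat_lit 3) TL2 CL1 CL2 = true := by decide +kernel
def st2_3_0 : starCk (nat_lit 14) (nat_lit 4) (nat_lit 2) (nat_lit 1) (nat_lit 1) (nat_lit 15) (nat_lit 256) C2_3 = true := by decide +kernel
def sc2_3 : stCov (nat_lit 2) (nat_lit 15) (Rl.cons (nat_lit 15) (nat_lit 1) Rl.nil) C2_3 = true := by decide +kernel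
def wf2_4 : wfC (nat_lit 14) (nat_lit 4) C2_4 = true := by decide +kernel
def rf2_4 : rfCk (nat_lit 60) (nat_lit 13) (nat_lit 14) (nat_lit 4) (nat_lit 9) (nat_lit 0) (nat_lit 4) TL2 CL1 CL2 = true := by decide +kernel
def st2_4_0 : starCk (nat_lit 14) (nat_lit 4) (nat_lit 2) (nat_lit 1) (nat_lit 4) (nat_lit 4) (nat_lit 1) C2_4 = true := by decide +kernel
def sc2_4 : stCov (nat_lit 0) (nat_lit 4) (Rl.cons (nat_lit 4) (nat_lit 4) Rl.nil) C2_4 = true := by decide +kernel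
def wf2_9 : wfC (nat_lit 14) (nat_lit 4) C2_9 = true := by decide +kernel
def rf2_9 : rfCk (nat_lit 60) (nat_lit 13) (nat_lit 14) (nat_lit 4) (nat_lit 9) (nat_lit 0) (nat_lit 9) TL2 CL1 CL2 = true := by decide +kernel
def st2_9_0 : starCk (nat_lit 14) (nat_lit 4) (nat_lit 2) (nat_lit 1) (nat_lit 16) (nat_lit 19) (nat_lit 4096) C2_9 = true := by decide +kernel
def sc2_9 : stCov (nat_lit 3) (nat_lit 19) (Rl.cons (nat_lit 19) (nat_lit 16) Rl.nil) C2_9 = true := by decide +kernel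
def wf2_10 : wfC (nat_lit 14) (nat_lit 4) C2_10 = true := by decide +kernel
def rf2_10 : rfCk (nat_lit 60) (nat_lit 13) (nat_lit 14) (nat_lit 4) (nat_lit 9) (nat_lit 0) (nat_lit 10) TL2 CL1 CL2 = true := by decide +kernel
def st2_10_0 : starCk (nat_lit 14) (nat_lit 4) (nat_lit 2) (nat_lit 1) (nat_lit 8) (nat_lit 20) (nat_lit 16) C2_10 = true := by decide +kernel
def sc2_10 : stCov (nat_lit 1) (nat_lit 20) (Rl.cons (nat_lit 20) (nat_lit 8) Rl.nil) C2_10 = true := by decide +kernel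
def wf2_11 : wfC (nat_lit 14) (nat_lit 4) C2_11 = true := by decide +kernel
def rf2_11 : rfCk (nat_lit 60) (nat_lit 13) (nat_lit 14) (nat_lit 4) (nat_lit 9) (nat_lit 0) (nat_lit 11) TL2 CL1 CL2 = true := by decide +kernel
def st2_11_0 : starCk (nat_lit 14) (nat_lit 4) (nat_lit 2) (nat_lit 1) (nat_lit 3) (nat_lit 4) (nat_lit 1) C2_11 = true := by decide +kernel
def sc2_11 : stCov (nat_lit 0) (nat_lit 4) (Rl.cons (nat_lit 4) (nat_lit 3) Rl.nil) C2_11 = true := by decide +kernel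
def wf2_12 : wfC (nat_lit 14) (nat_lit 4) C2_12 = true := by decide +kernel
def rf2_12 : rfCk (nat_lit 60) (nat_lit 13) (nat_lit 14) (nat_lit 4) (nat_lit 9) (nat_lit 0) (nat_lit 12) TL2 CL1 CL2 = true := by decide +kernel
def st2_12_0 : starCk (nat_lit 14) (nat_lit 4) (nat_lit 2) (nat_lit 1) (nat_lit 1) (nat_lit 8) (nat_lit 256) C2_12 = true := by decide +kernel
def sc2_12 : stCov (nat_lit 2) (nat_lit 8) (Rl.cons (nat_lit 8) (nat_lit 1) Rl.nil) C2_12 = true := by decide +kernel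
def ti2_0 : tileCk (nat_lit 14) (nat_lit 4) (nat_lit 1) (nat_lit 2) (nat_lit 24) (nat_lit 13) (nat_lit 14) ZL2_0 CL2 = true := by decide +kernel
def zl2_0 : zlOK (nat_lit 24) ZL2_0 = true := by decide +kernel
def ti2_1 : tileCk (nat_lit 14) (nat_lit 4) (nat_lit 1) (nat_lit 2) (nat_lit 2) (nat_lit 13) (nat_lit 14) ZL2_1 CL2 = true := by decide +kernel
def zl2_1 : zlOK (nat_lit 2) ZL2_1 = true := by decide +kernel
def tc2_0 : tiCov (nat_lit 1) (nat_lit 0) ZZ2 C2_0 = true := by decide +kernel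
def tc2_1 : tiCov (nat_lit 1) (nat_lit 1) ZZ2 C2_1 = true := by decide +kernel
def tc2_2 : tiCov (nat_lit 1) (nat_lit 2) ZZ2 C2_2 = true := by decide +kernel
def tc2_3 : tiCov (nat_lit 1) (nat_lit 3) ZZ2 C2_3 = true := by decide +kernel
def tc2_4 : tiCov (nat_lit 1) (nat_lit 4) ZZ2 C2_4 = true := by decide +kernel
def tc2_9 : tiCov (nat_lit 1) (nat_lit 9) ZZ2 C2_9 = true := by decide +kernel
def tc2_10 : tiCov (nat_lit 1) (nat_lit 10) ZZ2 C2_10 = true := by decide +kernel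
def tc2_11 : tiCov (nat_lit 1) (nat_lit 11) ZZ2 C2_11 = true := by decide +kernel
def tc2_12 : tiCov (nat_lit 1) (nat_lit 12) ZZ2 C2_12 = true := by decide +kernel
def de2_0 : deadCk (nat_lit 14) (nat_lit 4) C2_0 = true := by decide +kernel
def de2_1 : deadCk (nat_lit 14) (nat_lit 4) C2_1 = true := by decide +kernel
def de2_2 : deadCk (nat_lit 14) (nat_lit 4) C2_2 = true := by decide +kernel
def de2_3 : deadCk (nat_lit 14) (nat_lit 4) C2_3 = true := by decide +kernel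
def de2_4 : deadCk (nat_lit 14) (nat_lit 4) C2_4 = true := by decide +kernel
def de2_9 : deadCk (nat_lit 14) (nat_lit 4) C2_9 = true := by decide +kernel
def de2_10 : deadCk (nat_lit 14) (nat_lit 4) C2_10 = true := by decide +kernel
def de2_11 : deadCk (nat_lit 14) (nat_lit 4) C2_11 = true := by decide +kernel
def de2_12 : deadCk (nat_lit 14) (nat_lit 4) C2_12 = true := by decide +kernel
def wf1_5 : wfC (nat_lit 60) (nat_lit 13) C1_5 = true := by decide +kernel
def wf1_6 : wfC (nat_lit 60) (nat_lit 13) C1_6 = true := by decide +kernel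
def wf1_7 : wfC (nat_lit 60) (nat_lit 13) C1_7 = true := by decide +kernel
def wf1_8 : wfC (nat_lit 60) (nat_lit 13) C1_8 = true := by decide +kernel
def rf1_5 : rfCk (nat_lit 59) (nat_lit 5) (nat_lit 60) (nat_lit 13) (nat_lit 1) (nat_lit 262144) (nat_lit 5) TL1 CL0 CL1 = true := by decide +kernel
def rf1_6 : rfCk (nat_lit 59) (nat_lit 5) (nat_lit 60) (nat_lit 13) (nat_lit 1) (nat_lit 262144) (nat_lit 6) TL1 CL0 CL1 = true := by decide +kernel
def rf1_7 : rfCk (nat_lit 59) (nat_lit 5) (nat_lit 60) (nat_lit 13) (nat_lit 1) (nat_lit 262144) (nat_lit 7) TL1 CL0 CL1 = true := by decide +kernel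
def rf1_8 : rfCk (nat_lit 59) (nat_lit 5) (nat_lit 60) (nat_lit 13) (nat_lit 1) (nat_lit 262144) (nat_lit 8) TL1 CL0 CL1 = true := by decide +kernel
def sc1_5 : stCov (nat_lit 0) (nat_lit 0) Rl.nil C1_5 = true := by decide +kernel
def sc1_6 : stCov (nat_lit 0) (nat_lit 0) Rl.nil C1_6 = true := by decide +kernel
def sc1_7 : stCov (nat_lit 0) (nat_lit 0) Rl.nil C1_7 = true := by decide +kernel
def sc1_8 : stCov (nat_lit 0) (nat_lit 0) Rl.nil C1_8 = true := by decide +kernel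
def tc1_5 : tiCov (nat_lit 1) (nat_lit 5) ZZ1 C1_5 = true := by decide +kernel
def tc1_6 : tiCov (nat_lit 1) (nat_lit 6) ZZ1 C1_6 = true := by decide +kernel
def tc1_7 : tiCov (nat_lit 1) (nat_lit 7) ZZ1 C1_7 = true := by decide +kernel
def tc1_8 : tiCov (nat_lit 1) (nat_lit 8) ZZ1 C1_8 = true := by decide +kernel
def wf2_5 : wfC (nat_lit 14) (nat_lit 4) C2_5 = true := by decide +kernel
def wf2_6 : wfC (nat_lit 14) (nat_lit 4) C2_6 = true := by decide +kernel
def wf2_7 : wfC (nat_lit 14) (nat_lit 4) C2_7 = true := by decide +kernel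
def wf2_8 : wfC (nat_lit 14) (nat_lit 4) C2_8 = true := by decide +kernel
def wf2_13 : wfC (nat_lit 14) (nat_lit 4) C2_13 = true := by decide +kernel
def rf2_5 : rfCk (nat_lit 60) (nat_lit 13) (nat_lit 14) (nat_lit 4) (nat_lit 9) (nat_lit 0) (nat_lit 5) TL2 CL1 CL2 = true := by decide +kernel
def rf2_6 : rfCk (nat_lit 60) (nat_lit 13) (nat_lit 14) (nat_lit 4) (nat_lit 9) (nat_lit 0) (nat_lit 6) TL2 CL1 CL2 = true := by decide +kernel
def rf2_7 : rfCk (nat_lit 60) (nat_lit 13) (nat_lit 14) (nat_lit 4) (nat_lit 9) (nat_lit 0) (nat_lit 7) TL2 CL1 CL2 = true := by decide +kernel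
def rf2_8 : rfCk (nat_lit 60) (nat_lit 13) (nat_lit 14) (nat_lit 4) (nat_lit 9) (nat_lit 0) (nat_lit 8) TL2 CL1 CL2 = true := by decide +kernel
def rf2_13 : rfCk (nat_lit 60) (nat_lit 13) (nat_lit 14) (nat_lit 4) (nat_lit 9) (nat_lit 0) (nat_lit 13) TL2 CL1 CL2 = true := by decide +kernel
def sc2_5 : stCov (nat_lit 0) (nat_lit 0) Rl.nil C2_5 = true := by decide +kernel
def sc2_6 : stCov (nat_lit 0) (nat_lit 0) Rl.nil C2_6 = true := by decide +kernel
def sc2_7 : stCov (nat_lit 0) (nat_lit 0) Rl.nil C2_7 = true := by decide +kernel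
def sc2_8 : stCov (nat_lit 0) (nat_lit 0) Rl.nil C2_8 = true := by decide +kernel
def sc2_13 : stCov (nat_lit 0) (nat_lit 0) Rl.nil C2_13 = true := by decide +kernel
def tc2_5 : tiCov (nat_lit 1) (nat_lit 5) ZZ2 C2_5 = true := by decide +kernel
def tc2_6 : tiCov (nat_lit 1) (nat_lit 6) ZZ2 C2_6 = true := by decide +kernel
def tc2_7 : tiCov (nat_lit 1) (nat_lit 7) ZZ2 C2_7 = true := by decide +kernel
def tc2_8 : tiCov (nat_lit 1) (nat_lit 8) ZZ2 C2_8 = true := by decide +kernel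
def tc2_13 : tiCov (nat_lit 1) (nat_lit 13) ZZ2 C2_13 = true := by decide +kernel
def de2_5 : deadCk (nat_lit 14) (nat_lit 4) C2_5 = true := by decide +kernel
def de2_6 : deadCk (nat_lit 14) (nat_lit 4) C2_6 = true := by decide +kernel
def de2_7 : deadCk (nat_lit 14) (nat_lit 4) C2_7 = true := by decide +kernel
def de2_8 : deadCk (nat_lit 14) (nat_lit 4) C2_8 = true := by decide +kernel
def de2_13 : deadCk (nat_lit 14) (nat_lit 4) C2_13 = true := by decide +kernel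

end Pool.Agent.NNr.R13_1_6_7
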